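import Pool.Agent.Q236.GW.PrimeU
import Pool.Agent.Q236.GW.WAsym

set_option autoImplicit false

/-!
# The totient form of Goldbach's conjecture: near solutions for EVERY large `n`, their number and Poisson law

Let `n` be large. Call the integer `x` good if no prime `p ≤ (2 n) ^ (1 / r)` divides `(n - x) (n + x)`; for
`|x| < n` the numbers `m = n - x`, `n + x` have at most `r` prime factors and `0 ≤ m - φ(m) ≤ r (2 n) ^ (1 - 1 / r)`.
Let `P` be the set of the good `x ∈ (u, u + Y]` with `φ(n + x) + 1 = n + x` EXACTLY (that is, `n + x` is a prime).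
If `-n ≤ u`, `u + Y ≤ n`, `Y ≥ δ n`, the set `P` has `(1 + O(ε)) r exp (-γ) 𝔖(2 n) Y / log ^ 2 (2 n)` elements, with
the singular series of Goldbach's problem, and the number of the good `y ∈ (x, x + T]`, `x` running over `P`, has
the Poisson law of the expected mean, up to `ε`. There is no exceptional `n`.
-/

namespace Pool.Agent.Results.MP_967f73_nt.NearSolutionsLaw

open Finset Filter

/-- The twin prime constant: the infimum (the limit) of the decreasing products of `1 - 1 / (p - 1) ^ 2`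
over the primes `3 ≤ p ≤ z`. -/
noncomputable def C₂ : ℝ := ⨅ z : ℕ, ∏ p ∈ (Finset.Icc 3 z).filter Nat.Prime, (1 - 1 / ((p : ℝ) - 1) ^ 2)

/-- The singular series `2 C₂ ∏_{p ∣ n, p > 2} (p - 1) / (p - 2)`. -/
noncomputable def 𝔖 (n : ℕ) : ℝ :=
  2 * C₂ * ∏ p ∈ n.primeFactors.filter (fun p => 2 < p), ((p : ℝ) - 1) / ((p : ℝ) - 2)

/-- No prime `p ≤ (2 n) ^ (1 / r)` divides `(n - x) (n + x)`. -/
def Good (n r : ℕ) (x : ℤ) : Prop :=
  ∀ p : ℕ, p.Prime → (p : ℝ) ≤ (2 * n : ℝ) ^ (1 / (r : ℝ)) → ¬ (p : ℤ) ∣ (n - x) * (n + x)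

/-- The density of the good numbers: the product of `1 - ρ(p) / p` over the primes `p ≤ (2 n) ^ (1 / r)`,
where `ρ(p) = 1` if `p ∣ 2 n` and `ρ(p) = 2` otherwise. -/
noncomputable def V (n r : ℕ) : ℝ :=
  ∏ p ∈ (Finset.Icc 1 ⌊(2 * n : ℝ) ^ (1 / (r : ℝ))⌋₊).filter Nat.Prime,
    (1 - (if p ∣ 2 * n then (1 : ℝ) else 2) / p)

/-- The density of the good numbers among the `x` with `n + x` prime. -/
noncomputable def W (n r : ℕ) : ℝ :=
  ∏ p ∈ (Finset.Icc 1 ⌊(2 * n : ℝ) ^ (1 / (r : ℝ))⌋₊).filter Nat.Prime,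
    (1 - (if p ∣ 2 * n then (1 : ℝ) else 2) / p) / (1 - 1 / p)

open Classical in
/-- The good `x ∈ (u, u + Y]` with `φ(n + x) + 1 = n + x`. -/
noncomputable def P (n r : ℕ) (u : ℤ) (Y : ℕ) : Finset ℤ :=
  (Finset.Ioc u (u + Y)).filter (fun x => Nat.totient (n + x).toNat + 1 = (n + x).toNat ∧ Good n r x)

open Classical in
/-- The number of the good `y ∈ (x, x + T]`. -/
noncomputable def next (n r T : ℕ) (x : ℤ) : ℕ :=
  ((Finset.Ioc x (x + T)).filter (fun y => Good n r y)).card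

open Pool.Agent.W123.RP Pool.Agent.H373R2.T7 Pool.Agent.W123.RU Pool.Agent.TH464.PO
open Pool.Agent.Y879.AP Pool.Agent.Y879.GL Pool.Agent.Q236.GW
open Pool.Agent.W123.RU.Poly (Q)

lemma cast2 (n : ℕ) : ((2 * n : ℕ) : ℝ) = 2 * n := by push_cast; ring

lemma V_eq (n r : ℕ) : V n r = VG (2 * n) ⌊((2 * n : ℕ) : ℝ) ^ (1 / (r : ℝ))⌋₊ := by
  rw [VG_eq, cast2]
  rfl

lemma W_eq (n r : ℕ) : W n r =
    VG (2 * n) ⌊((2 * n : ℕ) : ℝ) ^ (1 / (r : ℝ))⌋₊ / Vz ⌊((2 * n : ℕ) : ℝ) ^ (1 / (r : ℝ))⌋₊ := by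
  rw [VG_eq, cast2]
  unfold W Vz
  rw [Finset.prod_div_distrib]
  rfl

lemma S_eq (n : ℕ) : 𝔖 n = SG n := rfl

lemma good_iff (n r m : ℕ) :
    Sf (Q (gl (2 * n : ℤ) (-1))) ⌊((2 * n : ℕ) : ℝ) ^ (1 / (r : ℝ))⌋₊ m ↔ Good n r ((m : ℤ) - n) := by
  rw [cast2]
  have h0 : (0 : ℝ) ≤ (2 * n : ℝ) ^ (1 / (r : ℝ)) := by positivity
  have key : ∀ q : ℕ, q.Prime → (Q (gl (2 * n : ℤ) (-1)) q m ↔
      (q : ℤ) ∣ ((n : ℤ) - ((m : ℤ) - n)) * ((n : ℤ) + ((m : ℤ) - n))) := by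
    intro q hq
    rw [gl_Q _ _ q m hq]
    have e : (m : ℤ) * (2 * n + -1 * m) = ((n : ℤ) - ((m : ℤ) - n)) * ((n : ℤ) + ((m : ℤ) - n)) := by ring
    rw [e]
  constructor
  · intro h q hq hqn hd
    exact h q (mem_pz.2 ⟨Nat.le_floor hqn, hq⟩) ((key q hq).2 hd)
  · intro h q hq hd
    have hqq := (mem_pz.1 hq).2
    exact h q hqq (mem_pz' h0 hq) ((key q hqq).1 hd)

lemma totient_low (m : ℕ) (z : ℝ) (hz : 0 < z) (hm : 0 < m)
    (h : ∀ p : ℕ, p.Prime → p ∣ m → z < (p : ℝ)) :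
    (m : ℝ) - Nat.totient m ≤ m.primeFactorsList.length * (m / z) := by
  have hmr : (0 : ℝ) < m := by exact_mod_cast hm
  have h1 : (Nat.totient m : ℝ) = m * ∏ p ∈ m.primeFactors, (1 - (p : ℝ)⁻¹) := by
    have := Nat.totient_eq_mul_prod_factors m
    have h2 : ((Nat.totient m : ℚ) : ℝ) = ((m * ∏ p ∈ m.primeFactors, (1 - (p : ℚ)⁻¹) : ℚ) : ℝ) := by
      rw [this]
    push_cast at h2
    exact h2
  have h2 : 1 - ∑ p ∈ m.primeFactors, (p : ℝ)⁻¹ ≤ ∏ p ∈ m.primeFactors, (1 - (p : ℝ)⁻¹) := by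
    apply prod_one_sub_ge
    · intro p hp
      positivity
    · intro p hp
      have := (Nat.prime_of_mem_primeFactors hp).one_lt.le
      exact inv_le_one_of_one_le₀ (by exact_mod_cast this)
  have h3 : ∑ p ∈ m.primeFactors, (p : ℝ)⁻¹ ≤ m.primeFactors.card * (1 / z) := by
    rw [← nsmul_eq_mul]
    apply Finset.sum_le_card_nsmul
    intro p hp
    have h4 := h p (Nat.prime_of_mem_primeFactors hp) (Nat.dvd_of_mem_primeFactors hp)
    rw [one_div]
    exact inv_anti₀ hz h4.le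
  have h4 : (m.primeFactors.card : ℝ) ≤ m.primeFactorsList.length := by
    have : m.primeFactors.card ≤ m.primeFactorsList.length := by
      unfold Nat.primeFactors
      exact List.toFinset_card_le _
    exact_mod_cast this
  rw [h1]
  have h5 : (m.primeFactors.card : ℝ) * (1 / z) ≤ m.primeFactorsList.length * (1 / z) :=
    mul_le_mul_of_nonneg_right h4 (by positivity)
  have h6 : (m : ℝ) * (1 - m.primeFactorsList.length * (1 / z)) ≤
      m * ∏ p ∈ m.primeFactors, (1 - (p : ℝ)⁻¹) :=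
    mul_le_mul_of_nonneg_left (by linarith) hmr.le
  have h7 : (m : ℝ) * (1 - m.primeFactorsList.length * (1 / z)) =
      m - m.primeFactorsList.length * (m / z) := by ring
  rw [h7] at h6
  linarith

lemma few (n r m : ℕ) (hr : 1 ≤ r) (hn : 2 ^ r ≤ 2 * n) (hm : 0 < m) (hmn : m ≤ 2 * n)
    (h : ∀ p : ℕ, p.Prime → p ∣ m → (2 * n : ℝ) ^ (1 / (r : ℝ)) < (p : ℝ)) :
    m.primeFactorsList.length ≤ r ∧ (m : ℝ) - Nat.totient m ≤ r * (2 * n : ℝ) ^ (1 - 1 / (r : ℝ)) := by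
  have hr0 : (r : ℝ) ≠ 0 := by exact_mod_cast (by omega : r ≠ 0)
  have hrpos : (0 : ℝ) < r := by exact_mod_cast (by omega : 0 < r)
  have hn1 : (1 : ℝ) ≤ 2 * n := by
    have h1 : 1 ≤ 2 ^ r := Nat.one_le_two_pow
    have h2 := h1.trans hn
    have h3 : ((1 : ℕ) : ℝ) ≤ ((2 * n : ℕ) : ℝ) := by exact_mod_cast h2
    rw [cast2] at h3
    simpa using h3
  have hn0 : (0 : ℝ) < 2 * n := by linarith
  have hz1 : 1 ≤ (2 * n : ℝ) ^ (1 / (r : ℝ)) := Real.one_le_rpow hn1 (by positivity)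
  have hmn' : (m : ℝ) ≤ 2 * n := by
    rw [← cast2]
    exact_mod_cast hmn
  have hlen : m.primeFactorsList.length ≤ r := by
    apply length_le m r (by omega) _ h _ hz1
    have e : ((2 * n : ℝ) ^ (1 / (r : ℝ))) ^ r = 2 * n := by
      rw [← Real.rpow_natCast, ← Real.rpow_mul (by linarith), one_div, inv_mul_cancel₀ hr0, Real.rpow_one]
    rw [pow_succ, e]
    nlinarith
  refine ⟨hlen, ?_⟩
  have h1 := totient_low m _ (by linarith) hm h
  refine h1.trans ?_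
  have h2 : (m : ℝ) / (2 * n : ℝ) ^ (1 / (r : ℝ)) ≤ (2 * n : ℝ) ^ (1 - 1 / (r : ℝ)) := by
    rw [Real.rpow_sub hn0, Real.rpow_one]
    exact div_le_div_of_nonneg_right hmn' (by linarith)
  calc (m.primeFactorsList.length : ℝ) * (m / (2 * n : ℝ) ^ (1 / (r : ℝ))) ≤
        r * (m / (2 * n : ℝ) ^ (1 / (r : ℝ))) := by
        apply mul_le_mul_of_nonneg_right _ (by positivity)
        exact_mod_cast hlen
    _ ≤ r * (2 * n : ℝ) ^ (1 - 1 / (r : ℝ)) := mul_le_mul_of_nonneg_left h2 hrpos.le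

/-- translation by `n` -/
lemma card_tr (n U Y : ℕ) (u : ℤ) (hu : u = (U : ℤ) - n) (f : ℤ → Prop) (g : ℕ → Prop)
    [DecidablePred f] [DecidablePred g] (h : ∀ m : ℕ, U < m → m ≤ U + Y → (g m ↔ f ((m : ℤ) - n))) :
    ((Finset.Ioc u (u + Y)).filter f).card = ((Finset.Ioc U (U + Y)).filter g).card := by
  symm
  apply Finset.card_bij (fun (m : ℕ) _ => (m : ℤ) - (n : ℤ))
  · intro m hm
    rw [Finset.mem_filter, Finset.mem_Ioc] at hm ⊢
    exact ⟨by rw [hu]; omega, (h m hm.1.1 hm.1.2).1 hm.2⟩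
  · intro a _ b _ hab
    omega
  · intro x hx
    rw [Finset.mem_filter, Finset.mem_Ioc, hu] at hx
    refine ⟨(x + n).toNat, ?_, by omega⟩
    rw [Finset.mem_filter, Finset.mem_Ioc]
    have h1 : U < (x + n).toNat := by omega
    have h2 : (x + n).toNat ≤ U + Y := by omega
    refine ⟨⟨h1, h2⟩, (h _ h1 h2).2 ?_⟩
    have h3 : (((x + n).toNat : ℕ) : ℤ) - n = x := by omega
    rw [h3]
    exact hx.2

lemma prime_iff (n m : ℕ) (hm : 0 < m) : m.Prime ↔
    Nat.totient ((n : ℤ) + ((m : ℤ) - n)).toNat + 1 = ((n : ℤ) + ((m : ℤ) - n)).toNat := by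
  have e : ((n : ℤ) + ((m : ℤ) - n)).toNat = m := by omega
  rw [e, ← Nat.totient_eq_iff_prime hm]
  have := Nat.totient_pos.2 hm
  omega

/-- **The totient form of Goldbach's conjecture: near solutions, their number and Poisson law.** -/
theorem result :
    (∀ (n r : ℕ) (x : ℤ), 1 ≤ r → 2 ^ r ≤ 2 * n → |x| < n → Good n r x → ∀ m : ℕ, (m : ℤ) = n - x ∨ (m : ℤ) = n + x →
      m.primeFactorsList.length ≤ r ∧ 0 ≤ (m : ℝ) - Nat.totient m ∧
        (m : ℝ) - Nat.totient m ≤ r * (2 * n : ℝ) ^ (1 - 1 / (r : ℝ))) ∧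
    (∀ r : ℕ, 2 ≤ r → ∀ δ : ℝ, 0 < δ → ∀ᶠ n : ℕ in atTop,
      |V n r * Real.log (2 * n) ^ 2 - (r * Real.exp (-Real.eulerMascheroniConstant)) ^ 2 * 𝔖 (2 * n)| ≤
        δ * 𝔖 (2 * n) ∧
      |W n r * Real.log (2 * n) - r * Real.exp (-Real.eulerMascheroniConstant) * 𝔖 (2 * n)| ≤ δ * 𝔖 (2 * n)) ∧
    ∀ δ : ℝ, 0 < δ → δ ≤ 1 → ∀ x₀ ε : ℝ, 0 < ε → ε ≤ 1 → ∃ r₀ : ℕ, 2 ≤ r₀ ∧
      ∀ r : ℕ, r₀ ≤ r → ∀ᶠ n : ℕ in atTop, ∀ (u : ℤ) (Y : ℕ), -(n : ℤ) ≤ u → u + Y ≤ n → δ * (2 * n) ≤ Y →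
          |((P n r u Y).card : ℝ) * Real.log (2 * n) - Y * W n r| ≤ ε * (Y * W n r) ∧
          ∀ T : ℕ, T * V n r ≤ x₀ → ∀ B : Finset ℕ,
            |(((P n r u Y).filter (fun x => next n r T x ∈ B)).card : ℝ) - (P n r u Y).card *
                ∑ j ∈ B, Real.exp (-(T * V n r)) * (T * V n r) ^ j / (j.factorial : ℝ)| ≤
              ε * (P n r u Y).card := by
  classical
  have htend : Tendsto (fun n : ℕ => 2 * n) atTop atTop := tendsto_id.const_mul_atTop' (by norm_num)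
  refine ⟨?_, ?_, ?_⟩
  · intro n r x hr hn hx hG m hm
    rw [abs_lt] at hx
    have hm0 : 0 < m := by omega
    have hm2 : m ≤ 2 * n := by omega
    have h1 : ∀ p : ℕ, p.Prime → p ∣ m → (2 * n : ℝ) ^ (1 / (r : ℝ)) < (p : ℝ) := by
      intro p hp hd
      by_contra hcon
      rw [not_lt] at hcon
      apply hG p hp hcon
      have hd' : (p : ℤ) ∣ (m : ℤ) := Int.natCast_dvd_natCast.2 hd
      rcases hm with h2 | h2
      · rw [h2] at hd'
        exact hd'.mul_right _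
      · rw [h2] at hd'
        exact hd'.mul_left _
    obtain ⟨h2, h3⟩ := few n r m hr hn hm0 hm2 h1
    refine ⟨h2, ?_, h3⟩
    rw [sub_nonneg]
    exact_mod_cast Nat.totient_le m
  · intro r hr δ hδ
    filter_upwards [htend.eventually (VG_asymU 1 r hr δ hδ), htend.eventually (WG_asymU 1 r hr δ hδ),
      eventually_ge_atTop 1] with n h1 h2 h3
    have hle : ((2 * n : ℕ) : ℝ) ≤ ((2 * n : ℕ) : ℝ) ^ (1 : ℝ) := by rw [Real.rpow_one]
    have a1 := h1 (2 * n) (even_two_mul n) (by omega) hle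
    have a2 := h2 (2 * n) (even_two_mul n) (by omega) hle
    rw [← V_eq] at a1
    rw [← W_eq] at a2
    rw [← S_eq, cast2] at a1 a2
    exact ⟨a1, a2⟩
  · intro δ hδ hδ1 x₀ ε hε hε1
    obtain ⟨r₀, hr₀, h⟩ := prime_gl 1 (1 / 2) 1 δ one_pos (by norm_num) one_pos hδ hδ1 x₀ ε hε hε1
    refine ⟨r₀, hr₀, ?_⟩
    intro r hr
    filter_upwards [htend.eventually (h r hr), eventually_ge_atTop 1] with n hn hn1 u Y hu huY hY
    have hn2 : (1 : ℝ) < ((2 * n : ℕ) : ℝ) := by exact_mod_cast (by omega : 1 < 2 * n)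
    have habs : |(((2 * n : ℤ)) : ℝ)| = ((2 * n : ℕ) : ℝ) := by
      push_cast
      rw [abs_of_nonneg (by positivity)]
    obtain ⟨U, hU⟩ : ∃ U : ℕ, U = (u + n).toNat := ⟨_, rfl⟩
    have huU : u = (U : ℤ) - n := by omega
    have hmain := hn (2 * n : ℤ) (-1) (by omega) (by norm_num) isCoprime_one_right.neg_right (by
        rw [mul_neg, mul_one, even_neg]
        exact even_two_mul _) (by rw [habs, Real.rpow_one]) (by
        rw [Real.rpow_one]
        push_cast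
        rw [abs_neg, abs_one]
        rw [cast2] at hn2
        exact hn2.le) (by
        intro _
        rw [habs]
        calc ((2 * n : ℕ) : ℝ) ^ (1 / 2 : ℝ) < ((2 * n : ℕ) : ℝ) ^ (1 : ℝ) :=
              Real.rpow_lt_rpow_of_exponent_lt hn2 (by norm_num)
          _ = _ := Real.rpow_one _) (2 * n) (by rw [Real.rpow_one]) U Y (by rw [cast2]; exact hY) (by omega)
    have eabs : (2 * (n : ℤ) * -1).natAbs = 2 * n := by omega
    rw [eabs, ← W_eq, ← V_eq, cast2] at hmain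
    have hsf : ∀ m : ℕ, Sf (Q (gl (2 * n : ℤ) (-1))) ⌊(2 * n : ℝ) ^ (1 / (r : ℝ))⌋₊ m ↔
        Good n r ((m : ℤ) - n) := by
      intro m
      have := good_iff n r m
      rw [cast2] at this
      exact this
    have eP : (P n r u Y).card = ((Ioc U (U + Y)).filter (fun m => m.Prime ∧
        Sf (Q (gl (2 * n : ℤ) (-1))) ⌊(2 * n : ℝ) ^ (1 / (r : ℝ))⌋₊ m)).card := by
      unfold P
      apply card_tr n U Y u huU
      intro m hm1 hm2
      rw [hsf m, prime_iff n m (by omega)]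
    have enext : ∀ (T m : ℕ), next n r T ((m : ℤ) - n) =
        Wc (Sf (Q (gl (2 * n : ℤ) (-1))) ⌊(2 * n : ℝ) ^ (1 / (r : ℝ))⌋₊) m T := by
      intro T m
      unfold next Wc
      apply card_tr n m T _ rfl
      intro l _ _
      exact hsf l
    rw [← eP] at hmain
    refine ⟨hmain.1, fun T hT B => ?_⟩
    have h3 := hmain.2 T hT B
    have e3 : ((P n r u Y).filter (fun x => next n r T x ∈ B)).card =
        ((Ioc U (U + Y)).filter (fun m => (m.Prime ∧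
          Sf (Q (gl (2 * n : ℤ) (-1))) ⌊(2 * n : ℝ) ^ (1 / (r : ℝ))⌋₊ m) ∧
          Wc (Sf (Q (gl (2 * n : ℤ) (-1))) ⌊(2 * n : ℝ) ^ (1 / (r : ℝ))⌋₊) m T ∈ B)).card := by
      unfold P
      rw [Finset.filter_filter]
      apply card_tr n U Y u huU
      intro m hm1 hm2
      rw [hsf m, prime_iff n m (by omega), enext T m]
    rw [← e3] at h3
    exact h3

end Pool.Agent.Results.MP_967f73_nt.NearSolutionsLaw
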