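import Pool.Agent.Q145.LS.All
import Pool.Agent.Q145.LS.Bri

set_option autoImplicit false
set_option maxHeartbeats 4000000

/-!
# Simultaneous Goldbach representations of long tuples of integers with one common prime

For slopes `a_1, ..., a_K ≥ 1` and integers `N_i` with `a_i (3 X + 1) < N_i ≤ a_i (4 X + 1)` let `G_N` be the
number of primes `X < p ≤ 2 X` for which `N_1 - a_1 p, ..., N_K - a_K p` are all prime: the common prime `p`
solves `N_i = a_i p + q_i`, `q_i` prime, for all `i` at once (`a_i = 1`: Goldbach representations of `K` even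
numbers).  The Hardy-Littlewood formula `G_N ~ 𝔖 X / (log X log (a_1 X) ... log (a_K X))` is proved for almost
all admissible `N`, for `K` and `a_i` up to a bound `Q`:

* for every `X` and `Q = A log log X`;
* for arbitrarily large `X` and `Q = c log X / log log X` (for `K ≥ (1 + δ) log X / log log X` the
  expected number tends to `0`);
* for every `X` and `Q = c log X / log log X`, unless there is an exceptional zero.
-/

namespace Pool.Agent.Results.MP_967f73_nt.SimultaneousGoldbach

open Finset Filter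

open scoped Classical

/-- For a prime `p`: the number of classes `n` modulo `p` for which `p` divides `n` or one of the `N_i - a_i n`. -/
def classes {K : ℕ} (a N : Fin K → ℕ) (p : ℕ) : ℕ :=
  ((range p).filter fun n : ℕ => (p : ℤ) ∣ n * ∏ i, ((N i : ℤ) - a i * n)).card

/-- The forms `n, N_1 - a_1 n, ..., N_K - a_K n` have no fixed prime divisor. -/
def Admissible {K : ℕ} (a N : Fin K → ℕ) : Prop := ∀ p : ℕ, p.Prime → classes a N p < p

/-- The partial products (primes up to `w`) of the singular series of the `K + 1` forms. -/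
noncomputable def partialSeries {K : ℕ} (a N : Fin K → ℕ) (w : ℕ) : ℝ :=
  ∏ p ∈ (Icc 1 w).filter Nat.Prime, (1 - (classes a N p : ℝ) / p) / (1 - 1 / (p : ℝ)) ^ (K + 1)

/-- The singular series: the limit of the partial products. -/
noncomputable def series {K : ℕ} (a N : Fin K → ℕ) : ℝ := limUnder atTop (partialSeries a N)

/-- The number of primes `X < p ≤ 2 X` for which all the `N_i - a_i p` are prime. -/
def count {K : ℕ} (X : ℕ) (a N : Fin K → ℕ) : ℕ :=
  ((Ioc X (2 * X)).filter fun p => p.Prime ∧ ∀ i, (N i - a i * p).Prime).card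

/-- The admissible `N` with `a_i (3 X + 1) < N_i ≤ a_i (4 X + 1)`. -/
noncomputable def targets {K : ℕ} (X : ℕ) (a : Fin K → ℕ) : Finset (Fin K → ℕ) :=
  (Fintype.piFinset fun i => Ioc (a i * (3 * X + 1)) (a i * (4 * X + 1))).filter (Admissible a)

/-- The formula `count = 𝔖 X / (log X ∏ log (a_i X))` holds, with a relative error at most `ε`, for all
but a proportion at most `ε` of the admissible `N`. -/
def Formula {K : ℕ} (X : ℕ) (a : Fin K → ℕ) (ε : ℝ) : Prop :=
  (((targets X a).filter fun N =>
    ¬ (|count X a N * (Real.log X * ∏ i, Real.log (a i * X)) - series a N * X| ≤ ε * (series a N * X))).card : ℝ) ≤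
      ε * (targets X a).card

/-- There is no exceptional zero at the scale `X`: the real zeros `β` of the primitive quadratic
characters of conductor `1 < r ≤ exp (log X / log log X)` are at most `1 - C log log X / log X`. -/
def NoExceptionalZero (C : ℝ) (X : ℕ) : Prop :=
  ∀ (r : ℕ) [NeZero r], 1 < r → (r : ℝ) ≤ Real.exp (Real.log X / Real.log (Real.log X)) →
    ∀ χ : DirichletCharacter ℂ r, χ.IsPrimitive → χ ^ 2 = 1 → ∀ β : ℝ, χ.LFunction β = 0 →
      β ≤ 1 - C * (Real.log (Real.log X) / Real.log X)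

open Pool.Agent.Q145.LS

theorem adm_iff {K : ℕ} (a N : Fin K → ℕ) : Admissible a N ↔ AdmS (fun i => -(a i : ℤ)) N := by
  unfold Admissible AdmS
  refine forall_congr' fun p => forall_congr' fun hp => ?_
  rw [nuS_neg a N hp]
  rfl

theorem partial_eq {K : ℕ} (a N : Fin K → ℕ) : partialSeries a N = singPS (fun i => -(a i : ℤ)) N := by
  funext w
  unfold partialSeries singPS locS
  refine prod_congr rfl fun p hp => ?_
  rw [nuS_neg a N (mem_filter.1 hp).2]
  rfl

theorem series_eq {K : ℕ} (a N : Fin K → ℕ) : series a N = singS (fun i => -(a i : ℤ)) N := by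
  unfold series singS
  rw [partial_eq]

theorem formula_of {K : ℕ} {X : ℕ} {a : Fin K → ℕ} {ε : ℝ} (h : HLS X (fun i => -(a i : ℤ)) ε) : Formula X a ε := by
  unfold HLS at h
  unfold Formula
  have h1 : targets X a = ATS X (fun i => -(a i : ℤ)) := by
    unfold targets ATS
    ext b
    simp only [mem_filter, Fintype.mem_piFinset]
    rw [adm_iff]
    refine and_congr ?_ Iff.rfl
    refine forall_congr' fun i => ?_
    rw [bx_neg X (a i)]
  have h2 : ∀ b, count X a b = cntS X (fun i => -(a i : ℤ)) b := by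
    intro b
    unfold count cntS
    simp only [vl_neg]
  have h3 : ∏ i, Real.log (a i * X) = ∏ i, Real.log (((-(a i : ℤ)).natAbs : ℝ) * X) := by
    refine prod_congr rfl fun i _ => ?_
    rw [Int.natAbs_neg, Int.natAbs_natCast]
  rw [h1, h3]
  simp only [h2, series_eq]
  convert h using 3

/-- **Theorem.** (0) The singular series of an admissible system of pairwise non-proportional forms
converges to a positive number.  (1) For every large `X` the formula holds for all slopes
`1 ≤ a_i ≤ A log log X` and `K ≤ A log log X`.  (2) For arbitrarily large `X` it holds for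
`K, a_i ≤ c log X / log log X`.  (3) For every large `X` it holds for `K, a_i ≤ c log X / log log X`,
unless there is an exceptional zero at the scale `X`. -/
theorem result :
    (∀ (K : ℕ) (a N : Fin K → ℕ), (∀ i, 1 ≤ a i ∧ 1 ≤ N i) → (∀ i j, i ≠ j → a i * N j ≠ a j * N i) → Admissible a N →
      Tendsto (partialSeries a N) atTop (nhds (series a N)) ∧ 0 < series a N) ∧
    (∀ A ε : ℝ, 0 < ε → ∀ᶠ X : ℕ in atTop, ∀ (K : ℕ) (a : Fin K → ℕ), (K : ℝ) ≤ A * Real.log (Real.log X) →
      (∀ i, 1 ≤ a i ∧ (a i : ℝ) ≤ A * Real.log (Real.log X)) → Formula X a ε) ∧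
    (∃ c : ℝ, 0 < c ∧ ∀ ε : ℝ, 0 < ε → ∃ᶠ X : ℕ in atTop, ∀ (K : ℕ) (a : Fin K → ℕ),
      (K : ℝ) ≤ c * (Real.log X / Real.log (Real.log X)) →
      (∀ i, 1 ≤ a i ∧ (a i : ℝ) ≤ c * (Real.log X / Real.log (Real.log X))) → Formula X a ε) ∧
    (∃ c C : ℝ, 0 < c ∧ 0 < C ∧ ∀ ε : ℝ, 0 < ε → ∀ᶠ X : ℕ in atTop, NoExceptionalZero C X →
      ∀ (K : ℕ) (a : Fin K → ℕ), (K : ℝ) ≤ c * (Real.log X / Real.log (Real.log X)) →
      (∀ i, 1 ≤ a i ∧ (a i : ℝ) ≤ c * (Real.log X / Real.log (Real.log X))) → Formula X a ε) := by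
  have key : ∀ (X : ℕ) (B ε : ℝ), (∀ Q : ℕ, (Q : ℝ) ≤ B → PS X Q ε) → ∀ (K : ℕ) (a : Fin K → ℕ), (K : ℝ) ≤ B →
      (∀ i, 1 ≤ a i ∧ (a i : ℝ) ≤ B) → Formula X a ε := by
    intro X B ε h K a hK ha
    have hB : 0 ≤ B := (Nat.cast_nonneg K).trans hK
    refine formula_of (h ⌊B⌋₊ (Nat.floor_le hB) K _ (Nat.le_floor hK) fun i => ⟨?_, ?_⟩)
    · have := (ha i).1
      simp only [ne_eq, neg_eq_zero, Int.natCast_eq_zero]
      omega
    · rw [Int.natAbs_neg, Int.natAbs_natCast]
      exact Nat.le_floor (ha i).2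
  refine ⟨?_, ?_, ?_, ?_⟩
  · intro K a N hab hnd hadm
    rw [partial_eq, series_eq]
    refine series_convS K _ N (fun i => ?_) (fun i => (hab i).2) ?_ ((adm_iff a N).1 hadm)
    · have := (hab i).1
      simp only [ne_eq, neg_eq_zero, Int.natCast_eq_zero]
      omega
    · intro i j hij h
      have := hnd i j hij
      apply this
      have h' : (a i : ℤ) * N j = a j * N i := by linarith
      exact_mod_cast h'
  · intro A ε hε
    filter_upwards [main1 A ε hε] with X hX K a hK ha
    exact key X _ ε hX K a hK ha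
  · obtain ⟨c, hc, h⟩ := main2
    refine ⟨c, hc, fun ε hε => (h ε hε).mono fun X hX K a hK ha => ?_⟩
    exact key X _ ε hX K a hK ha
  · obtain ⟨c, C, hc, hC, h⟩ := main3
    refine ⟨c, C, hc, hC, fun ε hε => ?_⟩
    filter_upwards [h ε hε] with X hX hzero K a hK ha
    exact key X _ ε (hX hzero) K a hK ha

end Pool.Agent.Results.MP_967f73_nt.SimultaneousGoldbach
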