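import Pool.Agent.Q253.Thin.VGold

/-!
# Chen's theorem with the small prime factor in a fixed set with `O(log x)` elements up to `x`

The system of the problem is `φ(n - x) + 1 = n - x`, `φ(n + x) + 1 = n + x`. Chen's theorem gives for every large
`n` integers `x` which satisfy the second equation exactly and for which `n - x` satisfies the first one or is the
product of two primes `q ≤ m`, that is `φ(m) + 1 = m` for `m = (n - x) / q`. Here `q` is an unspecified prime
below `√(2 n)`. The theorem below says: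

(1) for every large `n` and every window for `x` there are as many solutions as expected (up to a constant
factor), or for a positive proportion (in the sense of `∑ 1 / q`) of all primes `q` between `(2 n) ^ (1/9)` and
`(2 n) ^ (1/2)` there are as many `x` with this `q` as expected;

(2) `q` can be taken from one and the same very thin set `Q` of primes for all large `n` and all windows.

Libraries: `Y840.CT.GenF` (Chen's theorem in windows with sieve conditions that depend on the modulus, starting files),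
`Y151.HS.FLC` (fundamental lemma in residue classes, starting files).
-/

set_option autoImplicit false

namespace Pool.Agent.Results.MP_967f73_nt.ThinChen

open Finset Filter
open Pool.Agent.Y840.CT Pool.Agent.Q253.Thin

/-- `x` is an integral solution of the system of the problem. -/
def Sol (n : ℕ) (x : ℤ) : Prop := ∃ a b : ℕ, (n : ℤ) - x = a ∧ (n : ℤ) + x = b ∧ 0 < a ∧ 0 < b ∧
  Nat.totient a + 1 = a ∧ Nat.totient b + 1 = b

/-- `x` solves the second equation, and `n - x = q m` where `m ≥ q` solves `φ(m) + 1 = m`. -/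
def SolUpTo (q n : ℕ) (x : ℤ) : Prop := ∃ m b : ℕ, (n : ℤ) - x = q * m ∧ (n : ℤ) + x = b ∧ q ≤ m ∧ 0 < m ∧ 0 < b ∧
  Nat.totient m + 1 = m ∧ Nat.totient b + 1 = b

/-- The number of the integers `u < x ≤ v` with the property `P`. -/
noncomputable def count (P : ℤ → Prop) (u v : ℤ) : ℕ := {x : ℤ | u < x ∧ x ≤ v ∧ P x}.ncard

/-- `2 n / (φ(2 n) log ^ 2 (2 n))`: the expected density of the solutions, up to a bounded factor. -/
noncomputable def D (n : ℕ) : ℝ := (2 * n : ℕ) / (Nat.totient (2 * n) * Real.log (2 * n : ℕ) ^ 2)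

open Classical in
/-- The primes `(2 n) ^ (1/9) < q < (2 n) ^ (1/2)` such that `SolUpTo q n x` for at least `c (v - u) D(n) / q` of the
integers `u < x ≤ v`. -/
noncomputable def rich (c : ℝ) (n : ℕ) (u v : ℤ) : Finset ℕ := (range (2 * n)).filter (fun q => q.Prime ∧
  ((2 * n : ℕ) : ℝ) ^ (1 / 9 : ℝ) < q ∧ q ^ 2 < 2 * n ∧ c * ((v - u) * D n / q) ≤ (count (SolUpTo q n) u v : ℝ))

lemma tot_prime {p : ℕ} (hp : p.Prime) : Nat.totient p + 1 = p := by
  rw [Nat.totient_prime hp]
  have := hp.pos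
  omega

lemma card_le_count (P : ℤ → Prop) (n : ℕ) (u v : ℤ) (hu : -(n : ℤ) ≤ u) (S : Finset ℕ)
    (hS : ∀ p ∈ S, (n + u).toNat < p ∧ p ≤ (n + v).toNat ∧ P ((p : ℤ) - n)) : S.card ≤ count P u v := by
  classical
  have hinj : Function.Injective (fun p : ℕ => (p : ℤ) - n) := by
    intro a b hab
    simp only [sub_left_inj, Nat.cast_inj] at hab
    exact hab
  unfold count
  rw [← card_image_of_injective S hinj, ← Set.ncard_coe_finset]
  apply Set.ncard_le_ncard
  · intro x hx
    rw [mem_coe, mem_image] at hx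
    obtain ⟨p, hp, rfl⟩ := hx
    obtain ⟨h1, h2, h3⟩ := hS p hp
    refine ⟨?_, ?_, h3⟩
    · omega
    · omega
  · apply (finite_toSet (Ioc u v)).subset
    rintro x ⟨h1, h2, _⟩
    rw [mem_coe, mem_Ioc]
    exact ⟨h1, h2⟩

/-- the shift `2 n` -/
def sh (n : ℕ) : Fin 1 → ℤ := fun _ => ((2 * n : ℕ) : ℤ)

lemma FTsh (n : ℕ) : FT (sh n) = fun _ => {((2 * n : ℕ) : ℤ)} := by
  funext q
  unfold FT sh
  ext a
  simp

lemma sys (n : ℕ) (hn : 2 ≤ n) : SysF 1 (2 * n) (FT (sh n)) (sh n 0) := by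
  rw [FTsh]
  unfold sh
  refine ⟨fun q _ => by simp, by exact_mod_cast (by omega : 2 * n ≠ 0), ?_, fun q _ => by simp, ?_⟩
  · rw [abs_of_nonneg (by positivity)]
  · intro q hq
    rw [rho_single]
    split_ifs with h
    · exact hq.one_lt
    · rcases hq.two_le.eq_or_lt with h2 | h2
      · exfalso
        apply h
        rw [← h2]
        exact_mod_cast Dvd.intro n rfl
      · exact h2

/-- the translation of the two alternatives -/
lemma conv {t : ℕ} {c cV : ℝ} (hc : 0 < c) (hcV : 0 < cV)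
    (hV : ∀ N : ℕ, 2 ≤ N → Even N → cV * (N / (N.totient * Real.log N ^ 2)) ≤ VF (fun _ => {(N : ℤ)}) N)
    {n : ℕ} (hn : 2 ≤ n) {u v : ℤ} (hu : -(n : ℤ) ≤ u) (hv : v ≤ n) (huv : u < v) :
    (c * ((v - u) * VF (FT (sh n)) (2 * n : ℕ)) ≤ ((PF t (2 * n) (n + u).toNat (n + v).toNat (FT (sh n)) (sh n 0)).card : ℝ) →
      c * cV * ((v - u) * D n) ≤ (count (Sol n) u v : ℝ)) ∧
    ∀ q : ℕ, q.Prime → c * ((v - u) * VF (FT (sh n)) (2 * n : ℕ) / q) ≤
      ((RF t (2 * n) (n + u).toNat (n + v).toNat (FT (sh n)) (sh n 0) q).card : ℝ) → q ∈ rich (c * cV) n u v := by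
  classical
  have hXe : Even (2 * n) := ⟨n, by omega⟩
  have hdens : cV * D n ≤ VF (FT (sh n)) (2 * n) := by
    rw [FTsh]
    exact hV (2 * n) (by omega) hXe
  have hl : 0 < Real.log (2 * n : ℕ) := Real.log_pos (by exact_mod_cast (by omega : 1 < 2 * n))
  have hφ : (0 : ℝ) < (2 * n).totient := by exact_mod_cast Nat.totient_pos.2 (by omega)
  have hn0 : (0 : ℝ) < (2 * n : ℕ) := by exact_mod_cast (by omega : 0 < 2 * n)
  have hD : 0 < D n := by
    unfold D
    positivity
  have huv0 : (0 : ℝ) < (v : ℝ) - u := by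
    have : (u : ℝ) < v := by exact_mod_cast huv
    linarith
  have hBX : (n + v).toNat ≤ 2 * n := by omega
  constructor
  · intro h
    have h1 : (PF t (2 * n) (n + u).toNat (n + v).toNat (FT (sh n)) (sh n 0)).card ≤ count (Sol n) u v := by
      apply card_le_count _ n u v hu
      intro p hp
      unfold PF GoodF at hp
      rw [mem_filter, mem_filter, mem_Ioc] at hp
      obtain ⟨⟨⟨p1, p2⟩, pp, pt, pr, pF⟩, ph⟩ := hp
      have hpX : p ≤ 2 * n := le_trans p2 hBX
      unfold sh at ph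
      refine ⟨p1, p2, (((2 * n : ℕ) : ℤ) - (p : ℤ)).natAbs, p, ?_, by ring, ph.pos, pp.pos, tot_prime ph, tot_prime pp⟩
      omega
    calc c * cV * ((v - u) * D n) = c * ((v - u) * (cV * D n)) := by ring
      _ ≤ c * ((v - u) * VF (FT (sh n)) (2 * n)) :=
          mul_le_mul_of_nonneg_left (mul_le_mul_of_nonneg_left hdens huv0.le) hc.le
      _ ≤ _ := h
      _ ≤ _ := by exact_mod_cast h1
  · intro q hqp h
    have hq0 : (0 : ℝ) < q := by exact_mod_cast hqp.pos
    have hlow : 0 < c * ((v - u) * VF (FT (sh n)) (2 * n) / q) := by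
      have : 0 < VF (FT (sh n)) (2 * n) := lt_of_lt_of_le (by positivity) hdens
      positivity
    have hne : (RF t (2 * n) (n + u).toNat (n + v).toNat (FT (sh n)) (sh n 0) q).Nonempty := by
      rw [← card_pos]
      exact_mod_cast lt_of_lt_of_le hlow h
    obtain ⟨p, hp⟩ := hne
    unfold RF GoodF at hp
    rw [mem_filter, mem_filter, mem_Ioc] at hp
    obtain ⟨⟨⟨p1, p2⟩, pp, pt, ⟨pr1, pr2, pr3⟩, pF⟩, q', hq', hqq', hpq⟩ := hp
    have hpX : p ≤ 2 * n := le_trans p2 hBX
    have hq2 : q ^ 2 < 2 * n := by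
      have h1 : q ^ 2 ≤ q * q' := by
        rw [pow_two]
        exact Nat.mul_le_mul_left _ hqq'
      have h2 : (sh n 0 - (p : ℤ)).natAbs < 2 * n := by
        have := pp.pos
        unfold sh
        omega
      omega
    unfold rich
    rw [mem_filter, mem_range]
    refine ⟨?_, hqp, ?_, hq2, ?_⟩
    · have := Nat.le_self_pow (show 2 ≠ 0 by norm_num) q
      omega
    · apply pr3 q hqp
      rw [Int.natCast_dvd, hpq]
      exact Dvd.intro _ rfl
    · have h1 : (RF t (2 * n) (n + u).toNat (n + v).toNat (FT (sh n)) (sh n 0) q).card ≤ count (SolUpTo q n) u v := by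
        apply card_le_count _ n u v hu
        intro p hp
        unfold RF GoodF at hp
        rw [mem_filter, mem_filter, mem_Ioc] at hp
        obtain ⟨⟨⟨p1, p2⟩, pp, pt, pr, pF⟩, q', hq', hqq', hpq⟩ := hp
        have hpX : p ≤ 2 * n := le_trans p2 hBX
        refine ⟨p1, p2, q', p, ?_, by ring, hqq', hq'.pos, pp.pos, tot_prime hq', tot_prime pp⟩
        have h3 : ((sh n 0 - (p : ℤ)).natAbs : ℤ) = q * q' := by rw [hpq]; push_cast; ring
        have h4 : ((sh n 0 - (p : ℤ)).natAbs : ℤ) = 2 * n - p := by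
          unfold sh
          omega
        linarith
      calc c * cV * ((v - u) * D n / q) = c * ((v - u) * (cV * D n) / q) := by ring
        _ ≤ c * ((v - u) * VF (FT (sh n)) (2 * n) / q) :=
            mul_le_mul_of_nonneg_left (div_le_div_of_nonneg_right
              (mul_le_mul_of_nonneg_left hdens huv0.le) hq0.le) hc.le
        _ ≤ _ := h
        _ ≤ _ := by exact_mod_cast h1

/-- Let `D(n) = 2 n / (φ(2 n) log ^ 2 (2 n))`; `Sol n x`: `x` solves the system; `SolUpTo q n x`: `φ(n + x) + 1 = n + x` and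
`n - x = q m` with `φ(m) + 1 = m`, `m ≥ q`. There are `c, ρ > 0` such that:

(1) for every `θ > 0`, every `n ≥ n₀(θ)` and all integers `-n ≤ u < v ≤ n` with `v - u ≥ θ n`: at least
`c (v - u) D(n)` integers `u < x ≤ v` are solutions, or `∑ 1 / q ≥ ρ` for the sum over the primes `q` with
`(2 n) ^ (1/9) < q < (2 n) ^ (1/2)` such that `SolUpTo q n x` for at least `c (v - u) D(n) / q` integers `u < x ≤ v`;

(2) there are a set `Q` of primes and `C > 0` such that `Q` has at most `C log x` elements up to `x`, for every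
`x ≥ 2`, and in (1) the second alternative can be replaced by: one of these primes `q` belongs to `Q`. -/
theorem result : ∃ c ρ : ℝ, 0 < c ∧ 0 < ρ ∧
    (∀ θ : ℝ, 0 < θ → ∃ n₀ : ℕ, ∀ n : ℕ, n₀ ≤ n → ∀ u v : ℤ, -(n : ℤ) ≤ u → v ≤ n → θ * n ≤ (v : ℝ) - u →
      c * ((v - u) * D n) ≤ (count (Sol n) u v : ℝ) ∨ ρ ≤ ∑ q ∈ rich c n u v, (1 : ℝ) / q) ∧
    ∃ (Q : Set ℕ) (C : ℝ), 0 < C ∧ (∀ q ∈ Q, q.Prime) ∧
      (∀ x : ℕ, 2 ≤ x → ((Q ∩ Set.Iic x).ncard : ℝ) ≤ C * Real.log x) ∧
      ∀ θ : ℝ, 0 < θ → ∃ n₀ : ℕ, ∀ n : ℕ, n₀ ≤ n → ∀ u v : ℤ, -(n : ℤ) ≤ u → v ≤ n → θ * n ≤ (v : ℝ) - u →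
        c * ((v - u) * D n) ≤ (count (Sol n) u v : ℝ) ∨ ∃ q ∈ Q, q ∈ rich c n u v := by
  classical
  obtain ⟨t, ht, c, hc, ρ, hρ, hd⟩ := dich 1
  obtain ⟨C, hC, Q, hQp, hQc, hmain⟩ := thin le_rfl hρ hd
  obtain ⟨cV, hcV, hV⟩ := VG_low
  have hbasic : ∀ θ : ℝ, 0 < θ → ∀ n : ℕ, 2 ≤ n → ∀ u v : ℤ, -(n : ℤ) ≤ u → v ≤ n → θ * n ≤ (v : ℝ) - u →
      u < v ∧ (n + v).toNat ≤ 2 * n ∧ (((n + v).toNat : ℕ) : ℝ) - ((n + u).toNat : ℕ) = v - u ∧
      θ / 2 * (2 * n : ℕ) ≤ (((n + v).toNat : ℕ) : ℝ) - ((n + u).toNat : ℕ) := by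
    intro θ hθ n hn u v hu hv huv
    have hn0 : (0 : ℝ) < n := by exact_mod_cast (by omega : 0 < n)
    have huv1 : u < v := by
      have : 0 < θ * n := by positivity
      have : (u : ℝ) < v := by linarith
      exact_mod_cast this
    have hAr : (((n + u).toNat : ℕ) : ℝ) = n + u := by
      have : (((n + u).toNat : ℕ) : ℤ) = n + u := Int.toNat_of_nonneg (by omega)
      exact_mod_cast this
    have hBr : (((n + v).toNat : ℕ) : ℝ) = n + v := by
      have : (((n + v).toNat : ℕ) : ℤ) = n + v := Int.toNat_of_nonneg (by omega)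
      exact_mod_cast this
    refine ⟨huv1, by omega, by rw [hAr, hBr]; ring, ?_⟩
    rw [hAr, hBr]
    push_cast
    linarith
  refine ⟨c * cV, ρ, by positivity, hρ, ?_, Q, C, hC, hQp, ?_, ?_⟩
  · intro θ hθ
    obtain ⟨X₀, hX₀⟩ := hd (θ / 2) (by positivity)
    refine ⟨max X₀ 2, fun n hn u v hu hv huv => ?_⟩
    have hn1 : X₀ ≤ 2 * n := by
      have := (le_max_left X₀ 2).trans hn
      omega
    have hn2 : 2 ≤ n := (le_max_right X₀ 2).trans hn
    obtain ⟨b1, b2, b3, b4⟩ := hbasic θ hθ n hn2 u v hu hv huv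
    obtain ⟨k1, k2⟩ := conv (t := t) hc hcV hV hn2 hu hv b1
    rcases hX₀ (2 * n) hn1 (FT (sh n)) (sh n 0) (sys n hn2) (n + u).toNat (n + v).toNat b2 b4 with h | h
    · left
      apply k1
      rw [b3] at h
      exact h
    · right
      refine h.trans ?_
      apply sum_le_sum_of_subset_of_nonneg
      · intro q hq
        unfold Gd at hq
        rw [mem_filter, b3] at hq
        exact k2 q hq.2.1.1 hq.2.2.2
      · intro q _ _
        positivity
  · intro x hx
    obtain ⟨S, hS, hSc⟩ := hQc x hx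
    have h1 : (Q ∩ Set.Iic x).ncard ≤ S.card := by
      rw [← Set.ncard_coe_finset]
      apply Set.ncard_le_ncard
      · rintro q ⟨hq, hqx⟩
        exact hS q hq hqx
      · exact finite_toSet S
    have h2 : ((Q ∩ Set.Iic x).ncard : ℝ) ≤ S.card := by exact_mod_cast h1
    exact h2.trans hSc
  · intro θ hθ
    obtain ⟨X₀, hX₀⟩ := hmain (θ / 2) (by positivity)
    refine ⟨max X₀ 2, fun n hn u v hu hv huv => ?_⟩
    have hn1 : X₀ ≤ 2 * n := by
      have := (le_max_left X₀ 2).trans hn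
      omega
    have hn2 : 2 ≤ n := (le_max_right X₀ 2).trans hn
    obtain ⟨b1, b2, b3, b4⟩ := hbasic θ hθ n hn2 u v hu hv huv
    obtain ⟨k1, k2⟩ := conv (t := t) hc hcV hV hn2 hu hv b1
    have key := hX₀ (2 * n) hn1 (sh n) (fun _ => by unfold sh; rw [abs_of_nonneg (by positivity)]) 0 (sys n hn2)
      (n + u).toNat (n + v).toNat b2 b4
    rw [b3] at key
    rcases key with h | ⟨q, hq, h⟩
    · exact Or.inl (k1 h)
    · exact Or.inr ⟨q, hq, k2 q (hQp q hq) h⟩

end Pool.Agent.Results.MP_967f73_nt.ThinChen
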