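import Pool.Agent.Q259.AS.Win

/-!
# The solutions of `φ(n - h) + 1 = n - h`, `φ(n + h) + 1 = n + h` for the `n` near the dilates of typical points

Definitions used (in `Pool.Agent.H560R3.GB`): `C₂`: the twin prime constant
`∏_{p > 2} (1 - 1 / (p - 1) ^ 2)`; `sing m`: the singular series `2 C₂ ∏_{p ∣ m, p > 2} (p - 1) / (p - 2)`.
`Pool.Agent.Q259.AS`: `SelfSim μ`: `μ` is a self-similar measure `μ = ∑ p i * (f i)_* μ` of finitely many maps
`f i x = ρ i * x + t i` with `0 < |ρ i| < 1` and `p i > 0`, not all with the same fixed point (that is, `μ` is not a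
point mass; overlaps are allowed and the ratios are arbitrary); `FourLp μ`: the Fourier transform of `μ` belongs to
`L^q` for some `q < ∞` (for instance because it is `O(|t| ^ (-δ))` for some `δ > 0`).
-/

set_option autoImplicit false

namespace Pool.Agent.Results.MP_967f73_nt.TypicalPoints

open MeasureTheory Filter Finset Pool.Agent.H560R3.GB Pool.Agent.Q259.AS

/-- The integer `h` is a solution of the system `φ(n - h) + 1 = n - h`, `φ(n + h) + 1 = n + h`. -/
def IsSol (n : ℕ) (h : ℤ) : Prop :=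
  |h| < n ∧ (Nat.totient ((n : ℤ) - h).toNat : ℤ) + 1 = n - h ∧ (Nat.totient ((n : ℤ) + h).toNat : ℤ) + 1 = n + h

open Classical in
/-- The number of the solutions `h` with `u < h ≤ v`. -/
noncomputable def sols (n : ℕ) (u v : ℤ) : ℕ := ((Ioc u v).filter (fun h : ℤ => IsSol n h)).card

/-- In every window `(u, v]` with `-n ≤ u < v ≤ n` and `v - u ≥ n / log ^ A n` the number of the solutions is
positive and agrees with `sing (2 n) * (v - u) / log ^ 2 (2 n)` up to a relative error of at most `ε`. -/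
def Holds (ε : ℝ) (A n : ℕ) : Prop :=
  ∀ u v : ℤ, -(n : ℤ) ≤ u → u < v → v ≤ n → (n : ℝ) / Real.log n ^ A ≤ (v : ℝ) - u →
    0 < sols n u v ∧ |(sols n u v : ℝ) - sing (2 * n) * ((v : ℝ) - u) / Real.log (2 * n) ^ 2| ≤
      ε * (sing (2 * n) * ((v : ℝ) - u) / Real.log (2 * n) ^ 2)

lemma prime_of (m : ℤ) (h : (Nat.totient m.toNat : ℤ) + 1 = m) : m.toNat.Prime := by
  have h0 : 0 < m := by
    have : (0 : ℤ) ≤ (Nat.totient m.toNat : ℤ) := Int.natCast_nonneg _
    omega
  rw [← Nat.totient_eq_iff_prime (by omega)]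
  omega

lemma of_prime (m : ℕ) (h : m.Prime) : (Nat.totient m : ℤ) + 1 = m := by
  rw [Nat.totient_prime h]
  have := h.one_lt
  omega

lemma sols_eq (n : ℕ) (u v : ℤ) (hu : -(n : ℤ) ≤ u) (hv : v ≤ n) :
    sols n u v = Pool.Agent.W93.PG.cnt (2 * n) ((n : ℤ) + u).toNat ((n : ℤ) + v).toNat := by
  classical
  unfold sols Pool.Agent.W93.PG.cnt
  apply card_bij' (fun (h : ℤ) _ => ((n : ℤ) + h).toNat) (fun (p : ℕ) _ => (p : ℤ) - n)
  · intro h hh
    rw [mem_filter, mem_Ioc] at hh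
    obtain ⟨⟨h1, h2⟩, h3, h4, h5⟩ := hh
    rw [abs_lt] at h3
    have e1 : 2 * n - ((n : ℤ) + h).toNat = ((n : ℤ) - h).toNat := by omega
    rw [mem_filter, mem_Ioc, e1]
    exact ⟨⟨by omega, by omega⟩, prime_of _ h5, prime_of _ h4⟩
  · intro p hp
    rw [mem_filter, mem_Ioc] at hp
    obtain ⟨⟨h1, h2⟩, h3, h4⟩ := hp
    have h5 := h3.one_lt
    have h6 := h4.one_lt
    rw [mem_filter, mem_Ioc]
    refine ⟨⟨by omega, by omega⟩, ?_, ?_, ?_⟩
    · rw [abs_lt]
      omega
    · have e1 : ((n : ℤ) - ((p : ℤ) - n)).toNat = 2 * n - p := by omega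
      rw [e1, of_prime _ h4]
      omega
    · have e1 : ((n : ℤ) + ((p : ℤ) - n)).toNat = p := by omega
      rw [e1, of_prime _ h3]
      omega
  · intro h hh
    rw [mem_filter, mem_Ioc] at hh
    omega
  · intro p hp
    rw [mem_filter, mem_Ioc] at hp
    omega

lemma holds_of (ε : ℝ) (A : ℕ) : ∃ m₀ : ℕ, ∀ n : ℕ, m₀ ≤ 2 * n →
    Pool.Agent.W93.PG.WinP (min ε (1 / 2)) (A + 1) (2 * n) → Holds ε A n := by
  obtain ⟨n1, h1⟩ := Pool.Agent.H373R2.T7.ev_L' 2
  refine ⟨2 * n1 + 4, fun n hn hwin u v hu huv hv hlen => ?_⟩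
  have a1 := h1 n (by omega)
  have hn0 : (0 : ℝ) < n := by exact_mod_cast (by omega : 0 < n)
  have hl : Real.log (n : ℝ) ≤ Real.log ((2 * n : ℕ) : ℝ) := by
    apply Real.log_le_log hn0
    push_cast
    linarith
  have hL0 : 0 < Real.log (n : ℝ) := by linarith
  have hLn : 0 < Real.log ((2 * n : ℕ) : ℝ) := by linarith
  have hcast : (((n : ℤ) + v).toNat : ℝ) - (((n : ℤ) + u).toNat : ℝ) = (v : ℝ) - u := by
    have e1 : ((((n : ℤ) + v).toNat : ℤ) : ℝ) - ((((n : ℤ) + u).toNat : ℤ) : ℝ) = (v : ℝ) - u := by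
      rw [Int.toNat_of_nonneg (by omega), Int.toNat_of_nonneg (by omega)]
      push_cast
      ring
    exact_mod_cast e1
  have hcast2 : Real.log (2 * n : ℝ) = Real.log ((2 * n : ℕ) : ℝ) := by push_cast; rfl
  have hw := hwin ((n : ℤ) + u).toNat ((n : ℤ) + v).toNat (by omega) (by omega) (by
    rw [hcast]
    refine le_trans ?_ hlen
    rw [div_le_div_iff₀ (pow_pos hLn _) (pow_pos hL0 _)]
    have e2 : 2 * Real.log (n : ℝ) ^ A ≤ Real.log ((2 * n : ℕ) : ℝ) ^ (A + 1) := by
      rw [pow_succ, mul_comm 2]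
      exact mul_le_mul (pow_le_pow_left₀ hL0.le hl A) (by linarith) (by norm_num) (by positivity)
    push_cast at e2 ⊢
    nlinarith)
  rw [hcast, ← sols_eq n u v hu hv] at hw
  have hs := Pool.Agent.W93.GB.one_le_sing (2 * n)
  have huv' : (0 : ℝ) < (v : ℝ) - u := by
    have : (u : ℝ) < v := by exact_mod_cast huv
    linarith
  have hmain : 0 < sing (2 * n) * ((v : ℝ) - u) / Real.log ((2 * n : ℕ) : ℝ) ^ 2 := by
    have : 0 < sing (2 * n) := by linarith
    positivity
  rw [hcast2]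
  constructor
  · have h6 := hw.trans (mul_le_mul_of_nonneg_right (min_le_right _ _) hmain.le)
    have h7 : (0 : ℝ) < sols n u v := by
      rw [abs_le] at h6
      linarith [h6.1]
    exact_mod_cast h7
  · exact hw.trans (mul_le_mul_of_nonneg_right (min_le_left _ _) hmain.le)

/-- Let `μ` be a probability measure on the line which is self-similar and not a point mass, or whose Fourier
transform belongs to some `L^q`, `q < ∞`. Let `a 1, a 2, ...` be arbitrary positive real numbers with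
`log (a k) ≥ k ^ ρ` for large `k`, where `ρ > 0`, and let `Y k` be arbitrary sets of at most `k ^ T` real numbers `y`
with `|y| ≤ B a k`. Then `μ`-almost every `x` has the following property. For all `ε > 0`, `A` and `A'`, for all large
`k`, all `y` in `Y k` and EVERY integer `n ≥ 1` with `|n - (a k * x + y)| ≤ log (a k) ^ A'`, every window `(u, v]` with
`-n ≤ u < v ≤ n` and `v - u ≥ n / log ^ A n` contains solutions `h` of the system `φ(n - h) + 1 = n - h`,
`φ(n + h) + 1 = n + h`, and the number of these solutions agrees with `sing (2 n) * (v - u) / log ^ 2 (2 n)` up to a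
relative error of at most `ε`. -/
theorem result (μ : Measure ℝ) [IsProbabilityMeasure μ] (hμ : SelfSim μ ∨ FourLp μ) (a : ℕ → ℝ) (ρ : ℝ) (hρ : 0 < ρ)
    (ha : ∀ᶠ k : ℕ in atTop, 0 < a k ∧ (k : ℝ) ^ ρ ≤ Real.log (a k)) (B T : ℕ) (Y : ℕ → Finset ℝ)
    (hY : ∀ᶠ k : ℕ in atTop, (Y k).card ≤ k ^ T ∧ ∀ y ∈ Y k, |y| ≤ B * a k) :
    ∀ᵐ x ∂μ, ∀ ε : ℝ, 0 < ε → ∀ A A' : ℕ, ∀ᶠ k : ℕ in atTop, ∀ y ∈ Y k, ∀ n : ℕ, 1 ≤ n →
      |(n : ℝ) - (a k * x + y)| ≤ Real.log (a k) ^ A' → Holds ε A n := by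
  classical
  have h1 := as_windows μ hμ (fun k => 2 * a k) ρ hρ
    (by
      filter_upwards [ha] with k h
      refine ⟨by linarith [h.1], h.2.trans (Real.log_le_log h.1 (by linarith [h.1]))⟩)
    B T (fun k => (Y k).image (fun y => 2 * y))
    (by
      filter_upwards [hY] with k h
      refine ⟨card_image_le.trans h.1, fun y hy => ?_⟩
      obtain ⟨y', hy', rfl⟩ := mem_image.1 hy
      rw [abs_mul, abs_of_nonneg (by norm_num : (0 : ℝ) ≤ 2)]
      linarith [h.2 y' hy'])
  filter_upwards [h1] with x hx ε hε A A'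
  obtain ⟨m₀, hm₀⟩ := holds_of ε A
  filter_upwards [hx (min ε (1 / 2)) (lt_min hε (by norm_num)) (A + 1) (A' + 1) m₀, ha,
    sizes_ev a ρ hρ ha 2] with k h2 h3 h4 y hy n hn hnear
  have h5 := h2 (2 * y) (mem_image_of_mem _ hy) (2 * n) (by omega) ⟨n, rfl⟩ (by
    push_cast
    have e1 : 2 * (n : ℝ) - (2 * a k * x + 2 * y) = 2 * ((n : ℝ) - (a k * x + y)) := by ring
    rw [e1, abs_mul, abs_of_nonneg (by norm_num : (0 : ℝ) ≤ 2)]
    have e2 : Real.log (a k) ≤ Real.log (2 * a k) := Real.log_le_log h3.1 (by linarith [h3.1])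
    have e3 : Real.log (a k) ^ A' ≤ Real.log (2 * a k) ^ A' := pow_le_pow_left₀ (by linarith [h4.1]) e2 _
    rw [pow_succ, mul_comm (2 : ℝ)]
    calc |(n : ℝ) - (a k * x + y)| * 2 ≤ Real.log (2 * a k) ^ A' * 2 := by linarith
      _ ≤ Real.log (2 * a k) ^ A' * Real.log (2 * a k) := by
          apply mul_le_mul_of_nonneg_left (by linarith [h4.1])
          have : 0 ≤ Real.log (2 * a k) := by linarith [h4.1]
          positivity)
  exact hm₀ n h5.1 h5.2

end Pool.Agent.Results.MP_967f73_nt.TypicalPoints
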